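import Pool.Agent.N158.PC.Stm

/-!
# PC/POLY: a nonzero polynomial reaches `1` under the accelerated Collatz map over `F_2`
-/

set_option autoImplicit false

namespace Pool.Agent.N713.PC

open Polynomial Pool.Agent.N158.PC

lemma zm2 (c : ZMod 2) (h : c ≠ 0) : c = 1 := by
  revert c; decide

lemma coe_x : ((X : (ZMod 2)[X]) : A) = x := Polynomial.coe_X

lemma split0 (P : (ZMod 2)[X]) (h : P.coeff 0 = 0) : P = X * P.divX := by
  conv_lhs => rw [← divX_mul_X_add P]
  rw [h, C_0, add_zero, mul_comm]

lemma tri {k : ℕ} : (k + 1) * (k + 1 + 3) / 2 = k * (k + 3) / 2 + (k + 2) := by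
  have : (k + 1) * (k + 1 + 3) = k * (k + 3) + (k + 2) * 2 := by ring
  rw [this, Nat.add_mul_div_right _ _ (by norm_num)]

theorem t_POLY : T_POLY := by
  have key : ∀ d : ℕ, ∀ P : (ZMod 2)[X], P ≠ 0 → P.natDegree = d → ∀ N : ℕ,
      d * (d + 3) / 2 ≤ N → Reach (P : A) N (N - d) 1 := by
    intro d
    induction d with
    | zero =>
      intro P hP hd N _
      have h1 : P = C (P.coeff 0) := eq_C_of_natDegree_eq_zero hd
      have h2 : P.coeff 0 ≠ 0 := by
        intro h; rw [h, C_0] at h1; exact hP h1
      rw [zm2 _ h2, C_1] at h1
      rw [h1, coe_one]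
      exact reach_one N
    | succ k ih =>
      intro P hP hd N hN
      rw [tri] at hN
      have hk2 : 2 * k ≤ k * (k + 3) := by nlinarith
      have hk3 : k ≤ k * (k + 3) / 2 := by omega
      -- the step for polynomials without constant term
      have step : ∀ Q : (ZMod 2)[X], Q ≠ 0 → Q.natDegree = k + 1 → Q.coeff 0 = 0 → ∀ M : ℕ,
          k * (k + 3) / 2 ≤ M → Reach (Q : A) (M + 1) (M - k) 1 := by
        intro Q hQ hQd hQ0 M hM
        have h1 := split0 Q hQ0
        have h2 : Q.divX ≠ 0 := by
          intro h; rw [h, mul_zero] at h1; exact hQ h1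
        have h3 : Q.divX.natDegree = k := by
          rw [natDegree_divX_eq_natDegree_tsub_one, hQd]; rfl
        have h4 := ih Q.divX h2 h3 M hM
        rw [h1, coe_mul, coe_x]
        exact Reach.zero h4
      by_cases h0 : P.coeff 0 = 0
      · have := step P hP hd h0 (N - 1) (by omega)
        exact this.congr rfl (by omega) (by omega) rfl
      · have h01 : P.coeff 0 = 1 := zm2 _ h0
        set Q : (ZMod 2)[X] := P - 1 with hQ
        have hQd : Q.natDegree = k + 1 := by
          rw [hQ, ← C_1, natDegree_sub_C, hd]
        have hQ0 : Q ≠ 0 := by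
          intro h; rw [h, natDegree_zero] at hQd; omega
        have hQc : Q.coeff 0 = 0 := by
          rw [hQ, coeff_sub, h01, coeff_one_zero, sub_self]
        obtain ⟨u, hu, hud⟩ := exists_eq_pow_rootMultiplicity_mul_and_not_dvd Q hQ0 0
        rw [C_0, sub_zero] at hu hud
        set j := rootMultiplicity 0 Q with hj
        have hj1 : 1 ≤ j := by
          by_contra h
          have hj0 : j = 0 := by omega
          rw [hj0, pow_zero, one_mul] at hu
          apply hud
          rw [← hu]
          exact X_dvd_iff.2 hQc
        have hu0 : u ≠ 0 := by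
          intro h; rw [h, mul_zero] at hu; exact hQ0 hu
        have hud' : u.natDegree + j = k + 1 := by
          rw [← hQd, hu, natDegree_X_pow_mul _ hu0]
        have huc : u.coeff 0 = 1 := by
          apply zm2
          intro h
          exact hud (X_dvd_iff.2 h)
        -- the next polynomial
        set P' : (ZMod 2)[X] := (X + C 1) ^ j * u + C 1 with hP'
        have hP'd : P'.natDegree = k + 1 := by
          rw [hP', natDegree_add_C, (monic_X_add_C 1).pow j |>.natDegree_mul' hu0,
            natDegree_pow, natDegree_X_add_C]
          omega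
        have hP'0 : P' ≠ 0 := by
          intro h; rw [h, natDegree_zero] at hP'd; omega
        have hP'c : P'.coeff 0 = 0 := by
          rw [hP', coeff_zero_eq_eval_zero, eval_add, eval_mul, eval_pow, eval_add, eval_X,
            eval_C, ← coeff_zero_eq_eval_zero, huc]
          simp only [zero_add, one_pow, mul_one]
          decide
        have hR := step P' hP'0 hP'd hP'c (N - j - 1) (by omega)
        have e1 : (P : A) = 1 + x ^ j * (u : A) := by
          have : P = 1 + X ^ j * u := by rw [← hu, hQ]; ring
          rw [this, coe_add, coe_one, coe_mul, coe_pow, coe_x]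
        have e2 : (P' : A) = 1 + y ^ j * (u : A) := by
          rw [hP', coe_add, coe_mul, coe_pow, coe_add, coe_x, C_1, coe_one]
          unfold y
          ring
        rw [e1]
        rw [e2] at hR
        exact ((reach_one_add j (u : A)).trans hR).congr rfl (by omega) (by omega) rfl
  intro P hP N hN
  exact key P.natDegree P hP rfl N hN

end Pool.Agent.N713.PC
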